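import Pool.Agent.Helper69.SW.St

/-! # Project SW: module Clo, one step of the extension in the parameter -/

set_option autoImplicit false

open scoped BigOperators ENNReal Topology
open Pool.LE Pool.NL Pool.CL Pool.CB Filter

namespace Pool.SW

namespace CloM

/-- product of partial sums and the Cauchy product -/
theorem cauchy_le (a b : ℕ → ℝ) (ha : ∀ i, 0 ≤ a i) (hb : ∀ i, 0 ≤ b i) (N : ℕ) :
    (∑ i ∈ Finset.range N, a i) * (∑ j ∈ Finset.range N, b j) ≤
      ∑ r ∈ Finset.range (2 * N), ∑ i ∈ Finset.range (r + 1), a i * b (r - i) := by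
  classical
  rw [Finset.sum_mul_sum, ← Finset.sum_product', Finset.sum_sigma']
  have h1 : ∑ p ∈ Finset.range N ×ˢ Finset.range N, a p.1 * b p.2 =
      ∑ q ∈ (Finset.range N ×ˢ Finset.range N).image
        (fun p : ℕ × ℕ => (⟨p.1 + p.2, p.1⟩ : (_ : ℕ) × ℕ)), a q.2 * b (q.1 - q.2) := by
    rw [Finset.sum_image]
    · refine Finset.sum_congr rfl fun p _ => ?_
      simp
    · intro p _ q _ h
      simp only [Sigma.mk.injEq, heq_eq_eq] at h
      refine Prod.ext h.2 ?_
      have := h.1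
      have := h.2
      omega
  rw [h1]
  refine Finset.sum_le_sum_of_subset_of_nonneg ?_ fun q _ _ => mul_nonneg (ha _) (hb _)
  intro q hq
  obtain ⟨p, hp, rfl⟩ := Finset.mem_image.1 hq
  rw [Finset.mem_product, Finset.mem_range, Finset.mem_range] at hp
  rw [Finset.mem_sigma, Finset.mem_range, Finset.mem_range]
  constructor <;> simp only <;> omega

theorem TS_tendsto {d n : ℕ} (L : Finset (Zd d)) (c : ℝ) (g : ℕ → Zd d → ℝ) (g' : Zd d → ℝ)
    (h : ∀ y ∈ L, Tendsto (fun N => g N y) atTop (𝓝 (g' y))) (x : Zd d) :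
    Tendsto (fun N => TS L n c (g N) x) atTop (𝓝 (TS L n c g' x)) := by
  unfold TS ap
  refine Tendsto.const_mul _ ?_
  refine tendsto_finsetSum _ fun v hv => ?_
  exact Tendsto.const_mul _ (h v hv)

theorem TS_add {d n : ℕ} (L : Finset (Zd d)) (c : ℝ) (g h : Zd d → ℝ) (x : Zd d) :
    TS L n c (fun y => g y + h y) x = TS L n c g x + TS L n c h x := by
  unfold TS ap
  rw [← mul_add, ← Finset.sum_add_distrib]
  congr 1
  refine Finset.sum_congr rfl fun v _ => ?_
  ring

theorem TS_smul {d n : ℕ} (L : Finset (Zd d)) (c t : ℝ) (g : Zd d → ℝ) (x : Zd d) :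
    TS L n c (fun y => t * g y) x = t * TS L n c g x := by
  unfold TS ap
  rw [mul_left_comm, Finset.mul_sum (a := t)]
  congr 1
  refine Finset.sum_congr rfl fun v _ => ?_
  ring

theorem TS_sum {d n : ℕ} (L : Finset (Zd d)) (c : ℝ) (g : ℕ → Zd d → ℝ) (x : Zd d) (M : ℕ) :
    TS L n c (fun y => ∑ r ∈ Finset.range M, g r y) x = ∑ r ∈ Finset.range M, TS L n c (g r) x := by
  induction M with
  | zero =>
    simp [TS, ap]
  | succ M ih =>
    rw [Finset.sum_range_succ, ← ih, ← TS_add]
    congr 1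
    funext y
    rw [Finset.sum_range_succ]

/-- the recursion for the partial sums of the derivative -/
theorem Fp_succ {d n : ℕ} (L : Finset (Zd d)) (c V θ : ℝ) (f : Zd d → ℝ) (M : ℕ) (x : Zd d) :
    Fp (TS L n c) V f (M + 1) θ x = TS L n c (fun y => f y + V * ∑ r ∈ Finset.range M,
      ∑ i ∈ Finset.range (r + 1), (co (TS L n c) V f i y * θ ^ i) *
        (co (TS L n c) V f (r - i) y * θ ^ (r - i + 1) / (((r - i : ℕ) : ℝ) + 1))) x := by
  unfold Fp
  rw [Finset.sum_range_succ', TS_add, TS_smul, TS_sum, Finset.mul_sum, add_comm]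
  congr 1
  · simp [co]
  · refine Finset.sum_congr rfl fun r _ => ?_
    rw [co]
    have h1 : (fun y => ∑ i ∈ Finset.range (r + 1), (co (TS L n c) V f i y * θ ^ i) *
        (co (TS L n c) V f (r - i) y * θ ^ (r - i + 1) / (((r - i : ℕ) : ℝ) + 1))) =
        fun y => θ ^ (r + 1) * ∑ i : Fin (r + 1), co (TS L n c) V f i y *
          co (TS L n c) V f (r - i) y / (((r - i : ℕ) : ℝ) + 1) := by
      funext y
      rw [Finset.sum_range, Finset.mul_sum]
      refine Finset.sum_congr rfl fun i _ => ?_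
      have hi : θ ^ (r + 1) = θ ^ (i : ℕ) * θ ^ (r - i + 1) := by
        rw [← pow_add]
        congr 1
        have := i.2
        omega
      rw [hi]
      ring
    rw [h1, TS_smul]
    ring

end CloM

open CloM

theorem hClo (hTS : StTS) (hUp : StUp) (hUU : StUU) : StClo := by
  intro d n L c V η A θ f hd hn hc hV hη hA hθ hf hF
  have hf0 : ∀ y, 0 ≤ f y := fun y => hη.le.trans (hf y)
  obtain ⟨t1, t2, t3, t4, t5, t6⟩ := hTS d n L c hd hn hc
  obtain ⟨hco, hup1, -, -, -⟩ := hUp d n L c V θ f hd hn hc hV hθ hf0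
  have hco0 : ∀ r x, 0 ≤ co (TS L n c) V f r x := fun r x => (hco r x).1
  -- the series is bounded at `θ`
  have hFpm : ∀ (t : ℝ), 0 ≤ t → ∀ x, Monotone (fun N => Fp (TS L n c) V f N t x) := by
    intro t ht x
    refine monotone_nat_of_le_succ fun N => ?_
    unfold Fp
    rw [Finset.sum_range_succ]
    have := mul_nonneg (hco0 N x) (pow_nonneg ht N)
    linarith
  have hUpm : ∀ (t : ℝ), 0 ≤ t → ∀ x, Monotone (fun N => Up (TS L n c) V f N t x) := by
    intro t ht x
    refine monotone_nat_of_le_succ fun N => ?_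
    unfold Up
    rw [Finset.sum_range_succ]
    have : 0 ≤ co (TS L n c) V f N x * t ^ (N + 1) / ((N : ℝ) + 1) :=
      div_nonneg (mul_nonneg (hco0 N x) (pow_nonneg ht _)) (by positivity)
    linarith
  have hUF : ∀ N x, Up (TS L n c) V f N θ x ≤ θ * Fp (TS L n c) V f N θ x := by
    intro N x
    unfold Up Fp
    rw [Finset.mul_sum]
    refine Finset.sum_le_sum fun r _ => ?_
    have h1 : 0 ≤ co (TS L n c) V f r x * θ ^ (r + 1) := mul_nonneg (hco0 r x) (pow_nonneg hθ _)
    have h2 : co (TS L n c) V f r x * θ ^ (r + 1) / ((r : ℝ) + 1) ≤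
        co (TS L n c) V f r x * θ ^ (r + 1) := by
      refine div_le_self h1 ?_
      have : (0 : ℝ) ≤ r := Nat.cast_nonneg r
      linarith
    refine h2.trans (le_of_eq ?_)
    ring
  have hBd : Bd L n c V f θ := ⟨θ * A, fun N x hx =>
    (hUF N x).trans (mul_le_mul_of_nonneg_left (hF N x hx) hθ)⟩
  obtain ⟨u1, u2, u3⟩ := hUU d n L c V f hd hn hc hV hf0
  obtain ⟨v1, v2, v3, v4, v5⟩ := u3 θ hθ hBd
  -- the limit of the derivatives
  have hFlim : ∀ x ∈ L, ∃ l : ℝ, l ≤ A ∧ Tendsto (fun N => Fp (TS L n c) V f N θ x) atTop (𝓝 l) := by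
    intro x hx
    have hb : BddAbove (Set.range fun N => Fp (TS L n c) V f N θ x) := by
      refine ⟨A, ?_⟩
      rintro y ⟨N, rfl⟩
      exact hF N x hx
    exact ⟨_, ciSup_le fun N => hF N x hx, tendsto_atTop_ciSup (hFpm θ hθ x) hb⟩
  classical
  obtain ⟨F, hFdef⟩ : ∃ F : Zd d → ℝ, ∀ x ∈ L, F x ≤ A ∧
      Tendsto (fun N => Fp (TS L n c) V f N θ x) atTop (𝓝 (F x)) := by
    refine ⟨fun x => if h : x ∈ L then (hFlim x h).choose else 0, fun x hx => ?_⟩
    simp only [hx, dif_pos]
    exact (hFlim x hx).choose_spec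
  have hFnn : ∀ x ∈ L, 0 ≤ F x := by
    intro x hx
    refine ge_of_tendsto' (hFdef x hx).2 fun N => ?_
    exact Finset.sum_nonneg fun r _ => mul_nonneg (hco0 r x) (pow_nonneg hθ r)
  -- the second iterate
  obtain ⟨F', hF'⟩ : ∃ F' : Zd d → ℝ, F' = TS L n c (fun y => f y + V * (F y * UU L n c V f θ y)) :=
    ⟨_, rfl⟩
  have hF'le : ∀ x ∈ L, F' x ≤ F x := by
    intro x hx
    have h1 : Tendsto (fun N => TS L n c (fun y => f y + V * (Fp (TS L n c) V f N θ y *
        Up (TS L n c) V f N θ y)) x) atTop (𝓝 (F' x)) := by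
      rw [hF']
      refine TS_tendsto L c _ _ (fun y hy => ?_) x
      exact Tendsto.const_add _ (Tendsto.const_mul _ ((hFdef y hy).2.mul (v3 y)))
    have h2 : Tendsto (fun N => Fp (TS L n c) V f (2 * N + 1) θ x) atTop (𝓝 (F x)) := by
      refine (hFdef x hx).2.comp ?_
      refine tendsto_atTop_mono (fun N => ?_) tendsto_id
      simp only [id]
      omega
    refine le_of_tendsto_of_tendsto' h1 h2 fun N => ?_
    rw [Fp_succ]
    refine t1 _ _ (fun y _ => ?_) x
    have h3 := cauchy_le (fun i => co (TS L n c) V f i y * θ ^ i)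
      (fun j => co (TS L n c) V f j y * θ ^ (j + 1) / ((j : ℝ) + 1))
      (fun i => mul_nonneg (hco0 i y) (pow_nonneg hθ i))
      (fun j => div_nonneg (mul_nonneg (hco0 j y) (pow_nonneg hθ _)) (by positivity)) N
    have h4 := mul_le_mul_of_nonneg_left h3 hV.le
    unfold Fp Up
    linarith
  have hF'0 : ∀ x, 0 ≤ F' x := by
    intro x
    rw [hF']
    refine t2 _ (fun y hy => ?_) x
    have := mul_nonneg hV.le (mul_nonneg (hFnn y hy) (v1 y).1)
    linarith [hf0 y]
  have hALF : ∀ x ∈ L, AL F' x = c / (n : ℝ) ^ 2 * (f x + V * (F x * UU L n c V f θ x)) := by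
    intro x hx
    rw [hF']
    exact t5 _ x hx
  obtain ⟨δ, hδ⟩ : ∃ δ, δ = η / (2 * V * A ^ 2) := ⟨_, rfl⟩
  have hδ0 : 0 < δ := by
    rw [hδ]
    positivity
  have hδe : 2 * V * δ * A ^ 2 = η := by
    rw [hδ]
    field_simp
  have hn2 : 0 < c / (n : ℝ) ^ 2 := by
    have : (0 : ℝ) < n := by exact_mod_cast hn
    positivity
  have hAL : ∀ x, AL (fun y => UU L n c V f θ y + 2 * δ * F' y) x =
      AL (UU L n c V f θ) x + 2 * δ * AL F' x := by
    intro x
    unfold AL
    rw [Finset.sum_add_distrib, ← Finset.mul_sum]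
    ring
  have hSup : Sup L n c V f (θ + δ) (fun x => UU L n c V f θ x + 2 * δ * F' x) := by
    refine ⟨fun x => ?_, fun x hx => ?_⟩
    · have := mul_nonneg hδ0.le (hF'0 x)
      linarith [(v1 x).1]
    · rw [hAL, v5 x hx, hALF x hx]
      have h1 : (θ + δ) * f x + V / 2 * (UU L n c V f θ x + 2 * δ * F' x) ^ 2 ≤
          (θ * f x + V / 2 * UU L n c V f θ x ^ 2) +
            2 * δ * (f x + V * (F x * UU L n c V f θ x)) := by
        have e1 := hF'le x hx
        have e2 := hF'0 x
        have e3 := (hFdef x hx).1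
        have e4 := (v1 x).1
        have e5 := hf x
        have g1 : F' x * UU L n c V f θ x ≤ F x * UU L n c V f θ x :=
          mul_le_mul_of_nonneg_right e1 e4
        have g2 : F' x ^ 2 ≤ A ^ 2 := pow_le_pow_left₀ e2 (e1.trans e3) 2
        have g3 : 2 * V * δ * F' x ^ 2 ≤ f x := by
          calc 2 * V * δ * F' x ^ 2 ≤ 2 * V * δ * A ^ 2 :=
                mul_le_mul_of_nonneg_left g2 (by positivity)
            _ = η := hδe
            _ ≤ f x := e5
        have g4 : 2 * δ * V * (F' x * UU L n c V f θ x) ≤ 2 * δ * V * (F x * UU L n c V f θ x) :=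
          mul_le_mul_of_nonneg_left g1 (by positivity)
        have g5 : δ * (2 * V * δ * F' x ^ 2) ≤ δ * f x := mul_le_mul_of_nonneg_left g3 hδ0.le
        nlinarith
      have h2 := mul_le_mul_of_nonneg_left h1 hn2.le
      refine h2.trans (le_of_eq ?_)
      ring
  obtain ⟨hBd2, hUle⟩ := u1 (θ + δ) _ (by linarith) hSup
  obtain ⟨-, w2, -, -, -⟩ := u3 (θ + δ) (by linarith) hBd2
  -- the conclusion
  intro N x hx
  have hhalf : θ + η / (4 * V * A ^ 2) = θ + δ / 2 := by
    rw [hδ]
    field_simp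
    ring
  rw [hhalf]
  have key : ∀ N', N ≤ N' → δ / 2 * Fp (TS L n c) V f N (θ + δ / 2) x ≤
      UU L n c V f (θ + δ) x - Up (TS L n c) V f N' θ x := by
    intro N' hN
    have k1 : Fp (TS L n c) V f N (θ + δ / 2) x ≤ Fp (TS L n c) V f N' (θ + δ / 2) x :=
      hFpm _ (by linarith) x hN
    have k2 : Up (TS L n c) V f N' θ x + δ / 2 * Fp (TS L n c) V f N' (θ + δ / 2) x ≤
        Up (TS L n c) V f N' (θ + δ) x := by
      unfold Up Fp
      rw [Finset.mul_sum, ← Finset.sum_add_distrib]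
      refine Finset.sum_le_sum fun r _ => ?_
      have p1 : θ ^ (r + 1) ≤ (θ + δ / 2) ^ (r + 1) := pow_le_pow_left₀ hθ (by linarith) _
      have p2 : (θ + δ / 2) ^ (r + 1) + ((r : ℝ) + 1) * (θ + δ / 2) ^ r * (δ / 2) ≤
          (θ + δ) ^ (r + 1) := by
        have hpos : 0 < θ + δ / 2 := by linarith
        have hb := one_add_mul_le_pow (a := (δ / 2) / (θ + δ / 2))
          (by have : 0 ≤ (δ / 2) / (θ + δ / 2) := by positivity
              linarith) (r + 1)
        have h3 := mul_le_mul_of_nonneg_left hb (pow_nonneg hpos.le (r + 1))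
        rw [← mul_pow] at h3
        have h4 : (θ + δ / 2) * (1 + δ / 2 / (θ + δ / 2)) = θ + δ := by
          field_simp
          ring
        rw [h4] at h3
        refine le_trans (le_of_eq ?_) h3
        rw [pow_succ]
        push_cast
        field_simp
      have p3 : (0 : ℝ) < (r : ℝ) + 1 := by positivity
      have p4 : co (TS L n c) V f r x * θ ^ (r + 1) / ((r : ℝ) + 1) +
          δ / 2 * (co (TS L n c) V f r x * (θ + δ / 2) ^ r) =
          co (TS L n c) V f r x * (θ ^ (r + 1) + ((r : ℝ) + 1) * (θ + δ / 2) ^ r * (δ / 2)) /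
            ((r : ℝ) + 1) := by
        field_simp
      rw [p4]
      refine div_le_div_of_nonneg_right (mul_le_mul_of_nonneg_left ?_ (hco0 r x)) p3.le
      linarith
    have k3 := w2 N' x
    have k4 := mul_le_mul_of_nonneg_left k1 (show 0 ≤ δ / 2 by linarith)
    linarith
  have key2 : δ / 2 * Fp (TS L n c) V f N (θ + δ / 2) x ≤
      UU L n c V f (θ + δ) x - UU L n c V f θ x := by
    refine ge_of_tendsto (Tendsto.const_sub _ (v3 x)) ?_
    filter_upwards [eventually_ge_atTop N] with N' hN'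
    exact key N' hN'
  have key3 := hUle x
  have key4 : F' x ≤ A := (hF'le x hx).trans (hFdef x hx).1
  have key5 := mul_le_mul_of_nonneg_left key4 hδ0.le
  have key6 : δ * Fp (TS L n c) V f N (θ + δ / 2) x ≤ δ * (4 * A) := by
    linarith
  exact le_of_mul_le_mul_left key6 hδ0

end Pool.SW
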